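import Mathlib

open Set Topology

namespace Pool.Agent.Results.MP_1d6f1e_gt.VisualHull

/-- Euclidean space of dimension `n` -/
abbrev E (n : ℕ) := EuclideanSpace ℝ (Fin n)

/-- the visual hull of `S`: the points `x` such that every line through `x` meets `S` -/
def hull {n : ℕ} (S : Set (E n)) : Set (E n) :=
  {x | ∀ u : E n, u ≠ 0 → ∃ t : ℝ, x + t • u ∈ S}

/-- a body: a bounded convex set with nonempty interior -/
structure IsBody {n : ℕ} (S : Set (E n)) : Prop where
  convex : Convex ℝ S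
  bounded : Bornology.IsBounded S
  interior_nonempty : (interior S).Nonempty

/-- any two of the sets lie in the two different open half-spaces bounded by a hyperplane -/
def StrictlySeparated {n k : ℕ} (S : Fin k → Set (E n)) : Prop :=
  ∀ i j, i ≠ j → ∃ (f : E n →ₗ[ℝ] ℝ) (c : ℝ),
    f ≠ 0 ∧ (∀ x ∈ S i, f x < c) ∧ ∀ x ∈ S j, c < f x

/-! ### Linear algebra -/

lemma exists_ker {n : ℕ} (h : Fin n → (E n →ₗ[ℝ] ℝ)) (a : Fin n → ℝ) (ha : a ≠ 0)
    (hs : ∀ v, ∑ i, a i * h i v = 0) : ∃ u : E n, u ≠ 0 ∧ ∀ i, h i u = 0 := by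
  by_contra hcon
  push Not at hcon
  have hinj : Function.Injective (LinearMap.pi h) := by
    rw [← LinearMap.ker_eq_bot, LinearMap.ker_eq_bot']
    intro m hm
    by_contra hm0
    obtain ⟨i, hi⟩ := hcon m hm0
    exact hi (by simpa using congrFun hm i)
  have hfr : Module.finrank ℝ (E n) = Module.finrank ℝ (Fin n → ℝ) := by simp
  have hsurj := (LinearMap.injective_iff_surjective_of_finrank_eq_finrank hfr).1 hinj
  obtain ⟨i, hi⟩ := Function.ne_iff.1 ha
  obtain ⟨v, hv⟩ := hsurj (Pi.single i 1)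
  have h2 := hs v
  have h3 : ∀ j, h j v = (Pi.single i 1 : Fin n → ℝ) j := fun j => by
    simpa using congrFun hv j
  simp only [h3] at h2
  rw [Finset.sum_eq_single i] at h2
  · simp at h2; exact hi h2
  · intro j _ hj; simp [hj]
  · intro hh; exact absurd (Finset.mem_univ i) hh

/-! ### Different bodies lie in different components -/

lemma sep_aux {n : ℕ} {S : Fin n → Set (E n)} (i : Fin n) (g : Fin n → (E n →ₗ[ℝ] ℝ))
    (c : Fin n → ℝ) (hi : ∀ j, j ≠ i → ∀ x ∈ S i, g j x < c j)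
    (hj : ∀ j, j ≠ i → ∀ x ∈ S j, c j < g j x)
    {x : E n} (hx : x ∈ hull (⋃ i, S i)) (hle : ∀ j, j ≠ i → g j x ≤ c j) :
    ∀ j, j ≠ i → g j x < c j := by
  by_contra hcon
  push Not at hcon
  obtain ⟨k, hk, hkx⟩ := hcon
  obtain ⟨u, hu, hu2⟩ := exists_ker (fun j => if j = i then 0 else g j) (Pi.single i 1)
    (by intro h; simpa using congrFun h i) (by
      intro v
      rw [Finset.sum_eq_single i]
      · simp
      · intro j _ hj; simp [hj]
      · intro hh; exact absurd (Finset.mem_univ i) hh)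
  have hu3 : ∀ j, j ≠ i → g j u = 0 := fun j hj => by simpa [hj] using hu2 j
  obtain ⟨t, ht⟩ := hx u hu
  obtain ⟨m, hm⟩ := mem_iUnion.1 ht
  by_cases hmi : m = i
  · subst hmi
    have := hi k hk _ hm
    rw [map_add, map_smul, hu3 k hk, smul_zero, add_zero] at this
    linarith
  · have := hj m hmi _ hm
    rw [map_add, map_smul, hu3 m hmi, smul_zero, add_zero] at this
    linarith [hle m hmi]

lemma comp_ne {n : ℕ} {S : Fin n → Set (E n)} (hS : StrictlySeparated S) {i j : Fin n}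
    (hij : i ≠ j) {x y : hull (⋃ i, S i)} (hx : x.1 ∈ S i) (hy : y.1 ∈ S j) :
    (x : ConnectedComponents (hull (⋃ i, S i))) ≠ (y : ConnectedComponents (hull (⋃ i, S i))) := by
  classical
  have hch : ∀ k, ∃ (f : E n →ₗ[ℝ] ℝ) (c : ℝ), k ≠ i → (∀ x ∈ S i, f x < c) ∧
      ∀ x ∈ S k, c < f x := by
    intro k
    by_cases hk : k = i
    · exact ⟨0, 0, fun h => absurd hk h⟩
    · obtain ⟨f, c, -, h1, h2⟩ := hS i k (Ne.symm hk)
      exact ⟨f, c, fun _ => ⟨h1, h2⟩⟩
  choose g c hgc using hch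
  have key : ∀ z : hull (⋃ i, S i), (∀ k, k ≠ i → g k z.1 ≤ c k) → ∀ k, k ≠ i → g k z.1 < c k :=
    fun z hz => sep_aux i g c (fun k hk => (hgc k hk).1) (fun k hk => (hgc k hk).2) z.2 hz
  let U : Set (hull (⋃ i, S i)) := {z | ∀ k, k ≠ i → g k z.1 < c k}
  have hcont : ∀ k, Continuous fun z : hull (⋃ i, S i) => g k z.1 := fun k =>
    (LinearMap.continuous_of_finiteDimensional (g k)).comp continuous_subtype_val
  have hUo : IsOpen U := by
    have : U = ⋂ k : {k : Fin n // k ≠ i}, {z | g k.1 z.1 < c k.1} := by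
      ext z; simp [U]
    rw [this]
    exact isOpen_iInter_of_finite fun k => isOpen_lt (hcont _) continuous_const
  have hUc : IsClosed U := by
    have : U = ⋂ k : {k : Fin n // k ≠ i}, {z | g k.1 z.1 ≤ c k.1} := by
      ext z
      constructor
      · intro hz
        refine mem_iInter.2 fun k => ?_
        exact (hz k.1 k.2).le
      · intro hz
        exact key z fun k hk => mem_iInter.1 hz ⟨k, hk⟩
    rw [this]
    exact isClosed_iInter fun k => isClosed_le (hcont _) continuous_const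
  have hxU : x ∈ U := fun k hk => (hgc k hk).1 _ hx
  have hyU : y ∉ U := by
    intro h
    have h1 := h j (Ne.symm hij)
    have h2 := (hgc j (Ne.symm hij)).2 _ hy
    linarith
  intro heq
  have h1 : y ∈ connectedComponent x := by
    rw [← ConnectedComponents.coe_eq_coe']
    exact heq.symm
  exact hyU ((IsClopen.connectedComponent_subset ⟨hUc, hUo⟩ hxU) h1)

/-! ### A ray which meets all the bodies -/

lemma stay {n : ℕ} {S : Fin n → Set (E n)} (hc : ∀ i, Convex ℝ (S i)) {x v : E n}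
    (hx : x ∈ hull (⋃ i, S i)) (t : Fin n → ℝ) (ht : ∀ i, 0 < t i ∧ x + t i • v ∈ S i)
    (r : ℝ) (h0 : 0 ≤ r) (hr : ∀ i, r ≤ t i) : x + r • v ∈ hull (⋃ i, S i) := by
  intro u hu
  obtain ⟨σ, hσ⟩ := hx u hu
  obtain ⟨j, hj⟩ := mem_iUnion.1 hσ
  have htj := (ht j).1
  have hθ0 : 0 ≤ r / t j := div_nonneg h0 htj.le
  have hθ1 : r / t j ≤ 1 := (div_le_one htj).2 (hr j)
  refine ⟨(1 - r / t j) * σ, mem_iUnion.2 ⟨j, ?_⟩⟩
  have := hc j hj (ht j).2 (by linarith : (0 : ℝ) ≤ 1 - r / t j) hθ0 (by ring)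
  have e : (1 - r / t j) • (x + σ • u) + (r / t j) • (x + t j • v)
      = x + r • v + ((1 - r / t j) * σ) • u := by
    have h3 : (r / t j) * t j = r := div_mul_cancel₀ r htj.ne'
    have : (r / t j) • (t j • v) = r • v := by rw [smul_smul, h3]
    rw [smul_add, smul_add, this, smul_smul]
    module
  rwa [e] at this

lemma common_ray_compact {n : ℕ} (hn : 0 < n) {S : Fin n → Set (E n)}
    (hc : ∀ i, Convex ℝ (S i)) (hk : ∀ i, IsCompact (S i)) (hne : ∀ i, (S i).Nonempty)
    {x : E n} (hx : x ∈ hull (⋃ i, S i)) (hxS : ∀ i, x ∉ S i) :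
    ∃ v : E n, ∀ i, ∃ t : ℝ, 0 < t ∧ x + t • v ∈ S i := by
  classical
  by_contra hcon
  push Not at hcon
  let Φ : (Fin n → ℝ) × (Fin n → E n) → (Fin n → E n) := fun p i => p.1 i • (p.2 i - x)
  have hΦ : Continuous Φ := by
    refine continuous_pi fun i => ?_
    exact ((continuous_apply i).comp continuous_fst).smul
      (((continuous_apply i).comp continuous_snd).sub continuous_const)
  let K : Set (Fin n → E n) := Φ '' (stdSimplex ℝ (Fin n) ×ˢ Set.pi univ S)
  have hKc : IsCompact K :=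
    ((isCompact_stdSimplex ℝ (Fin n)).prod (isCompact_univ_pi hk)).image hΦ
  have hKconv : Convex ℝ K := by
    rintro _ ⟨⟨l, s⟩, ⟨hl, hs⟩, rfl⟩ _ ⟨⟨m, r⟩, ⟨hm, hr⟩, rfl⟩ a b ha hb hab
    simp only at hl hs hm hr
    refine ⟨⟨a • l + b • m, fun i => if a * l i + b * m i = 0 then s i else
      (a * l i / (a * l i + b * m i)) • s i + (b * m i / (a * l i + b * m i)) • r i⟩,
      ⟨convex_stdSimplex ℝ (Fin n) hl hm ha hb hab, ?_⟩, ?_⟩
    · intro i _
      show (if a * l i + b * m i = 0 then s i else _) ∈ S i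
      split_ifs with h0
      · exact hs i (mem_univ i)
      · have h1 : 0 ≤ a * l i := mul_nonneg ha (hl.1 i)
        have h2 : 0 ≤ b * m i := mul_nonneg hb (hm.1 i)
        refine hc i (hs i (mem_univ i)) (hr i (mem_univ i)) (div_nonneg h1 (by linarith))
          (div_nonneg h2 (by linarith)) ?_
        rw [← add_div, div_self h0]
    · funext i
      have h1 : 0 ≤ a * l i := mul_nonneg ha (hl.1 i)
      have h2 : 0 ≤ b * m i := mul_nonneg hb (hm.1 i)
      show (a * l i + b * m i) • ((if a * l i + b * m i = 0 then s i else _) - x)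
        = a • (l i • (s i - x)) + b • (m i • (r i - x))
      split_ifs with h0
      · have h3 : a * l i = 0 := by linarith
        have h4 : b * m i = 0 := by linarith
        rw [h0, smul_smul, smul_smul, h3, h4]; simp
      · have h5 : (a * l i + b * m i) * (a * l i / (a * l i + b * m i)) = a * l i :=
          mul_div_cancel₀ _ h0
        have h6 : (a * l i + b * m i) * (b * m i / (a * l i + b * m i)) = b * m i :=
          mul_div_cancel₀ _ h0
        rw [smul_sub, smul_add, smul_smul, smul_smul, h5, h6, smul_smul, smul_smul]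
        module
  let δ : E n →ₗ[ℝ] (Fin n → E n) := LinearMap.pi fun _ => LinearMap.id
  have hdisj : Disjoint K (LinearMap.range δ : Set (Fin n → E n)) := by
    rw [Set.disjoint_left]
    rintro _ ⟨⟨l, s⟩, ⟨hl, hs⟩, rfl⟩ ⟨v, hv⟩
    simp only at hl hs
    have hv' : ∀ i, v = l i • (s i - x) := fun i => congrFun hv i
    by_cases hv0 : v = 0
    · have hsum := hl.2
      have : ∀ i, l i = 0 := by
        intro i
        by_contra hli
        have h1 := hv' i
        rw [hv0] at h1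
        have h2 := (smul_eq_zero.1 h1.symm).resolve_left hli
        exact hxS i (by rw [← sub_eq_zero.1 h2]; exact hs i (mem_univ i))
      simp [this] at hsum
    · obtain ⟨i, hi⟩ := hcon v
      have hli : l i ≠ 0 := by
        intro h; apply hv0; rw [hv' i, h, zero_smul]
      have hpos : 0 < l i := lt_of_le_of_ne (hl.1 i) (Ne.symm hli)
      refine hi (l i)⁻¹ (inv_pos.2 hpos) ?_
      rw [hv' i, smul_smul, inv_mul_cancel₀ hli, one_smul]
      simpa using hs i (mem_univ i)
  obtain ⟨F, p, q, hp, hpq, hq⟩ := geometric_hahn_banach_compact_closed hKconv hKc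
    (LinearMap.range δ).convex (Submodule.closed_of_finiteDimensional _) hdisj
  have hq0 : q < 0 := by simpa using hq 0 (Submodule.zero_mem _)
  have hD : ∀ v, F (δ v) = 0 := by
    intro v
    by_contra h0
    have h1 := hq (δ (((q - 1) / F (δ v)) • v)) ⟨_, rfl⟩
    rw [map_smul, map_smul, smul_eq_mul, div_mul_cancel₀ _ h0] at h1
    linarith
  let f : Fin n → (E n →ₗ[ℝ] ℝ) := fun i => F.toLinearMap.comp (LinearMap.single ℝ (fun _ => E n) i)
  have hf : ∀ i w, f i w = F (Pi.single i w) := fun i w => rfl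
  have hfneg : ∀ i, ∀ s ∈ S i, f i (s - x) < 0 := by
    intro i s hs
    have hmem : Pi.single i (s - x) ∈ K := by
      choose a ha using hne
      refine ⟨⟨Pi.single i 1, Function.update a i s⟩, ⟨?_, ?_⟩, ?_⟩
      · exact single_mem_stdSimplex ℝ i
      · intro j _
        by_cases hj : j = i
        · subst hj; simpa using hs
        · simpa [Function.update_of_ne hj] using ha j
      · funext j
        by_cases hj : j = i
        · subst hj; simp [Φ]
        · simp [Φ, hj]
    have := hp _ hmem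
    rw [hf]; linarith
  obtain ⟨u, hu, hu2⟩ := exists_ker f (fun _ => 1)
    (by intro h; simpa using congrFun h ⟨0, hn⟩) (by
      intro v
      have h1 : (∑ i, Pi.single i v : Fin n → E n) = δ v := by
        funext j
        simp [δ, Finset.sum_apply, Pi.single_apply]
      simp only [one_mul, hf]
      rw [← map_sum, h1, hD])
  obtain ⟨t, ht⟩ := hx u hu
  obtain ⟨i, hi⟩ := mem_iUnion.1 ht
  have := hfneg i _ hi
  rw [add_sub_cancel_left, map_smul, hu2 i, smul_zero] at this
  exact lt_irrefl _ this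

lemma common_ray_open {n : ℕ} {S : Fin n → Set (E n)}
    (hc : ∀ i, Convex ℝ (S i)) (ho : ∀ i, IsOpen (S i)) (hne : ∀ i, (S i).Nonempty)
    {x : E n} (hx : x ∈ hull (⋃ i, S i)) (hxS : ∀ i, x ∉ S i) :
    ∃ v : E n, ∀ i, ∃ t : ℝ, 0 < t ∧ x + t • v ∈ S i := by
  classical
  by_contra hcon
  push Not at hcon
  let P : Fin n → Set (E n) := fun i => {v | ∃ t : ℝ, 0 < t ∧ x + t • v ∈ S i}
  have hPo : ∀ i, IsOpen (P i) := by
    intro i
    have : P i = ⋃ t : {t : ℝ // 0 < t}, (fun v : E n => x + t.1 • v) ⁻¹' S i := by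
      ext v; simp [P]
    rw [this]
    refine isOpen_iUnion fun t => (ho i).preimage ?_
    fun_prop
  have hPc : ∀ i, Convex ℝ (P i) := by
    rintro i v ⟨t, ht, hv⟩ w ⟨s, hs, hw⟩ a b ha hb hab
    have hpos : 0 < a / t + b / s := by
      rcases ha.eq_or_lt with h | h
      · subst h
        have : b = 1 := by linarith
        subst this
        have : 0 < 1 / s := by positivity
        simpa using this
      · have h1 : 0 < a / t := div_pos h ht
        have h2 : 0 ≤ b / s := div_nonneg hb hs.le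
        linarith
    refine ⟨(a / t + b / s)⁻¹, inv_pos.2 hpos, ?_⟩
    have h1 : 0 ≤ (a / t + b / s)⁻¹ * (a / t) :=
      mul_nonneg (inv_pos.2 hpos).le (div_nonneg ha ht.le)
    have h2 : 0 ≤ (a / t + b / s)⁻¹ * (b / s) :=
      mul_nonneg (inv_pos.2 hpos).le (div_nonneg hb hs.le)
    have h3 : (a / t + b / s)⁻¹ * (a / t) + (a / t + b / s)⁻¹ * (b / s) = 1 := by
      rw [← mul_add, inv_mul_cancel₀ hpos.ne']
    have h4 := hc i hv hw h1 h2 h3
    convert h4 using 1
    have e1 : (a / t + b / s)⁻¹ * (a / t) * t = (a / t + b / s)⁻¹ * a := by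
      rw [mul_assoc, div_mul_cancel₀ _ ht.ne']
    have e2 : (a / t + b / s)⁻¹ * (b / s) * s = (a / t + b / s)⁻¹ * b := by
      rw [mul_assoc, div_mul_cancel₀ _ hs.ne']
    have q1 : ((a / t + b / s)⁻¹ * (a / t)) • (x + t • v)
        = ((a / t + b / s)⁻¹ * (a / t)) • x + ((a / t + b / s)⁻¹ * a) • v := by
      rw [smul_add, smul_smul, e1]
    have q2 : ((a / t + b / s)⁻¹ * (b / s)) • (x + s • w)
        = ((a / t + b / s)⁻¹ * (b / s)) • x + ((a / t + b / s)⁻¹ * b) • w := by
      rw [smul_add, smul_smul, e2]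
    rw [q1, q2]
    have e3 : x = ((a / t + b / s)⁻¹ * (a / t)) • x + ((a / t + b / s)⁻¹ * (b / s)) • x := by
      rw [← add_smul, h3, one_smul]
    conv_lhs => rw [e3]
    module
  have hSP : ∀ i, ∀ s ∈ S i, s - x ∈ P i := by
    intro i s hs
    exact ⟨1, one_pos, by simpa using hs⟩
  let δ : E n →ₗ[ℝ] (Fin n → E n) := LinearMap.pi fun _ => LinearMap.id
  have hdisj : Disjoint (Set.pi univ P) (LinearMap.range δ : Set (Fin n → E n)) := by
    rw [Set.disjoint_left]
    rintro _ hv ⟨v, rfl⟩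
    obtain ⟨i, hi⟩ := hcon v
    obtain ⟨t, ht, h⟩ := hv i (mem_univ i)
    exact hi t ht h
  obtain ⟨F, p, hp, hq⟩ := geometric_hahn_banach_open (convex_pi fun i _ => hPc i)
    (isOpen_set_pi finite_univ fun i _ => hPo i) (LinearMap.range δ).convex hdisj
  have hp0 : p ≤ 0 := by simpa using hq 0 (Submodule.zero_mem _)
  have hD : ∀ v, F (δ v) = 0 := by
    intro v
    by_contra h0
    have h1 := hq (δ (((p - 1) / F (δ v)) • v)) ⟨_, rfl⟩
    rw [map_smul, map_smul, smul_eq_mul, div_mul_cancel₀ _ h0] at h1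
    linarith
  let f : Fin n → (E n →ₗ[ℝ] ℝ) := fun i => F.toLinearMap.comp (LinearMap.single ℝ (fun _ => E n) i)
  have hf : ∀ i w, f i w = F (Pi.single i w) := fun i w => rfl
  have hsum : ∀ q : Fin n → E n, F q = ∑ i, f i (q i) := by
    intro q
    simp only [hf]
    rw [← map_sum]
    congr 1
    funext j
    simp [Finset.sum_apply]
  choose s hs using hne
  have hle : ∀ i, ∀ w ∈ P i, f i w ≤ 0 := by
    intro i w hw
    by_contra hpos
    push Not at hpos
    set B := F (Function.update (fun j => s j - x) i 0) with hB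
    have hr : 0 < (|B| + 1) / f i w := by positivity
    have hmem : Function.update (fun j => s j - x) i (((|B| + 1) / f i w) • w) ∈ Set.pi univ P := by
      intro j _
      by_cases hj : j = i
      · subst hj
        obtain ⟨t, ht, h⟩ := hw
        simp only [Function.update_self]
        refine ⟨t / ((|B| + 1) / f j w), div_pos ht hr, ?_⟩
        rw [smul_smul, div_mul_cancel₀ _ hr.ne']
        exact h
      · rw [Function.update_of_ne hj]
        exact hSP j _ (hs j)
    have h1 := hp _ hmem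
    have h2 : Function.update (fun j => s j - x) i (((|B| + 1) / f i w) • w)
        = Function.update (fun j => s j - x) i 0 + Pi.single i (((|B| + 1) / f i w) • w) := by
      funext j
      by_cases hj : j = i
      · subst hj; simp
      · simp [hj]
    rw [h2, map_add, ← hB, ← hf, map_smul, smul_eq_mul, div_mul_cancel₀ _ hpos.ne'] at h1
    linarith [neg_abs_le B]
  have hlt : ∀ i, f i ≠ 0 → ∀ w ∈ P i, f i w < 0 := by
    intro i hi w hw
    refine lt_of_le_of_ne (hle i w hw) fun h0 => ?_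
    obtain ⟨z, hz⟩ : ∃ z, 0 < f i z := by
      by_contra hall
      push Not at hall
      apply hi
      ext z
      have h1 := hall z
      have h2 := hall (-z)
      rw [map_neg] at h2
      simp only [LinearMap.zero_apply]
      linarith
    have hcont : Continuous fun e : ℝ => w + e • z := by fun_prop
    have hnhds : (fun e : ℝ => w + e • z) ⁻¹' P i ∈ 𝓝 (0 : ℝ) :=
      ((hPo i).preimage hcont).mem_nhds (by simpa using hw)
    obtain ⟨ε, hε, hball⟩ := Metric.mem_nhds_iff.1 hnhds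
    have hin : ε / 2 ∈ Metric.ball (0 : ℝ) ε := by
      rw [Metric.mem_ball, Real.dist_eq, sub_zero, abs_of_pos (by linarith)]
      linarith
    have h3 := hle i _ (hball hin)
    rw [map_add, map_smul, h0, zero_add, smul_eq_mul] at h3
    have : 0 < ε / 2 * f i z := mul_pos (by linarith) hz
    linarith
  have hg : ∀ i, ∃ g : E n →ₗ[ℝ] ℝ, ∀ y ∈ S i, g (y - x) ≠ 0 := by
    intro i
    obtain ⟨g, hg⟩ := geometric_hahn_banach_point_open (hc i) (ho i) (hxS i)
    refine ⟨g.toLinearMap, fun y hy => ?_⟩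
    have := hg y hy
    intro h
    have h2 : g (y - x) = 0 := h
    rw [map_sub] at h2
    linarith
  choose g hg using hg
  let h : Fin n → (E n →ₗ[ℝ] ℝ) := fun i => if f i = 0 then g i else f i
  have hh : ∀ i, ∀ y ∈ S i, h i (y - x) ≠ 0 := by
    intro i y hy
    by_cases h0 : f i = 0
    · simp only [h, h0, if_true]; exact hg i y hy
    · simp only [h, h0, if_false]; exact (hlt i h0 _ (hSP i y hy)).ne
  obtain ⟨u, hu, hu2⟩ := exists_ker h (fun i => if f i = 0 then 0 else 1)
    (by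
      intro hz
      have hall : ∀ i, f i = 0 := by
        intro i
        by_contra h0
        have := congrFun hz i
        simp [h0] at this
      have h1 := hp (fun j => s j - x) (fun j _ => hSP j _ (hs j))
      rw [hsum] at h1
      simp [hall] at h1
      linarith) (by
      intro v
      have h1 : ∀ i, (if f i = 0 then (0 : ℝ) else 1) * h i v = f i v := by
        intro i
        by_cases h0 : f i = 0
        · simp [h0]
        · simp [h, h0]
      simp only [h1]
      have := hsum (δ v)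
      rw [hD] at this
      exact this.symm)
  obtain ⟨t, ht⟩ := hx u hu
  obtain ⟨i, hi⟩ := mem_iUnion.1 ht
  have := hh i _ hi
  rw [add_sub_cancel_left, map_smul, hu2 i, smul_zero] at this
  exact this rfl

/-! ### The number of components -/

lemma same_comp {X : Type} [TopologicalSpace X] {H T : Set X} (hTH : T ⊆ H)
    (hT : IsPreconnected T) {x y : H} (hx : x.1 ∈ T) (hy : y.1 ∈ T) :
    (x : ConnectedComponents H) = y := by
  have hT' : IsPreconnected (Subtype.val ⁻¹' T : Set H) := by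
    refine Topology.IsInducing.subtypeVal.isPreconnected_image.1 ?_
    rw [Subtype.image_preimage_coe, inter_eq_right.2 hTH]
    exact hT
  exact ConnectedComponents.coe_eq_coe'.2 (hT'.subset_connectedComponent hy hx)

lemma subset_hull {n : ℕ} {S : Set (E n)} : S ⊆ hull S :=
  fun x hx u _ => ⟨0, by simpa using hx⟩

lemma surj {n : ℕ} (hn : 0 < n) {S : Fin n → Set (E n)} (hc : ∀ i, Convex ℝ (S i))
    (hray : ∀ x ∈ hull (⋃ i, S i), (∀ i, x ∉ S i) →
      ∃ v : E n, ∀ i, ∃ t : ℝ, 0 < t ∧ x + t • v ∈ S i)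
    (a : Fin n → hull (⋃ i, S i)) (ha : ∀ i, (a i).1 ∈ S i) :
    Function.Surjective fun i => (a i : ConnectedComponents (hull (⋃ i, S i))) := by
  have hsub : ∀ i, S i ⊆ hull (⋃ i, S i) := fun i =>
    (subset_iUnion S i).trans subset_hull
  intro c
  obtain ⟨x, rfl⟩ := ConnectedComponents.surjective_coe c
  by_cases hx : ∃ i, x.1 ∈ S i
  · obtain ⟨i, hi⟩ := hx
    exact ⟨i, same_comp (hsub i) (hc i).isPreconnected (ha i) hi⟩
  · push Not at hx
    obtain ⟨v, hv⟩ := hray x.1 x.2 hx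
    choose t ht using hv
    have : Nonempty (Fin n) := ⟨⟨0, hn⟩⟩
    obtain ⟨i, hi⟩ := Finite.exists_min t
    refine ⟨i, same_comp (T := S i ∪ segment ℝ x.1 (x.1 + t i • v)) ?_ ?_ (Or.inl (ha i))
      (Or.inr (left_mem_segment ℝ _ _))⟩
    · refine union_subset (hsub i) ?_
      rw [segment_eq_image']
      rintro _ ⟨θ, ⟨h0, h1⟩, rfl⟩
      have e : x.1 + θ • (x.1 + t i • v - x.1) = x.1 + (θ * t i) • v := by
        rw [add_sub_cancel_left, smul_smul]
      simp only [e]
      refine stay hc x.2 t ht (θ * t i) (mul_nonneg h0 (ht i).1.le) fun j => ?_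
      calc θ * t i ≤ 1 * t i := mul_le_mul_of_nonneg_right h1 (ht i).1.le
        _ = t i := one_mul _
        _ ≤ t j := hi j
    · exact IsPreconnected.union (x.1 + t i • v) (ht i).2 (right_mem_segment ℝ _ _)
        (hc i).isPreconnected (convex_segment _ _).isPreconnected

lemma card_ge {n : ℕ} {S : Fin n → Set (E n)} (hS : StrictlySeparated S)
    (hne : ∀ i, (S i).Nonempty) :
    (n : ℕ∞) ≤ ENat.card (ConnectedComponents (hull (⋃ i, S i))) := by
  choose s hs using hne
  let a : Fin n → hull (⋃ i, S i) := fun i => ⟨s i, subset_hull (mem_iUnion.2 ⟨i, hs i⟩)⟩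
  have hinj : Function.Injective fun i => (a i : ConnectedComponents (hull (⋃ i, S i))) := by
    intro i j hij
    by_contra hne
    exact comp_ne hS hne (hs i) (hs j) hij
  have := ENat.card_le_card_of_injective hinj
  simpa using this

lemma card_eq {n : ℕ} (hn : 0 < n) {S : Fin n → Set (E n)} (hS : StrictlySeparated S)
    (hc : ∀ i, Convex ℝ (S i)) (hne : ∀ i, (S i).Nonempty)
    (hray : ∀ x ∈ hull (⋃ i, S i), (∀ i, x ∉ S i) →
      ∃ v : E n, ∀ i, ∃ t : ℝ, 0 < t ∧ x + t • v ∈ S i) :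
    ENat.card (ConnectedComponents (hull (⋃ i, S i))) = n := by
  choose s hs using hne
  let a : Fin n → hull (⋃ i, S i) := fun i => ⟨s i, subset_hull (mem_iUnion.2 ⟨i, hs i⟩)⟩
  have hinj : Function.Injective fun i => (a i : ConnectedComponents (hull (⋃ i, S i))) := by
    intro i j hij
    by_contra hne
    exact comp_ne hS hne (hs i) (hs j) hij
  have hsurj := surj hn hc hray a hs
  rw [← ENat.card_congr (Equiv.ofBijective _ ⟨hinj, hsurj⟩)]
  simp

/-! ### Three bodies in space whose visual hull has an isolated point -/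

def q1 (x y t : ℝ) : Prop :=
  t ≤ 0 ∧ x + t ≤ 0 ∧ 0 ≤ y - t ∧ 1 ≤ -x + y - 3 * t ∧ -x + y - 3 * t ≤ 2

def q2 (x y t : ℝ) : Prop :=
  (0 < t ∨ (t = 0 ∧ y ≤ x)) ∧ 0 ≤ y + t ∧ 0 ≤ x + y + t ∧
    5 ≤ x + 2 * y + 3 * t ∧ x + 2 * y + 3 * t ≤ 6

def q3 (x y t : ℝ) : Prop :=
  (t < 0 ∨ (t = 0 ∧ x ≤ y)) ∧ 0 ≤ x - t ∧ 0 ≤ x + y - t ∧
    13 ≤ 2 * x + y - 3 * t ∧ 2 * x + y - 3 * t ≤ 14

lemma q1_of {a b c : ℝ} (h1 : c ≤ 0) (h2 : a + c ≤ 0) (h3 : 0 ≤ b - c)
    (h4 : 0 < -a + b - 3 * c) : ∃ s : ℝ, q1 (s * a) (s * b) (s * c) := by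
  set l := -a + b - 3 * c with hl
  have hp : 0 < l⁻¹ := inv_pos.2 h4
  have hm : l⁻¹ * l = 1 := inv_mul_cancel₀ h4.ne'
  refine ⟨l⁻¹, mul_nonpos_of_nonneg_of_nonpos hp.le h1, ?_, ?_, ?_, ?_⟩
  · nlinarith [mul_nonpos_of_nonneg_of_nonpos hp.le h2]
  · nlinarith [mul_nonneg hp.le h3]
  · nlinarith
  · nlinarith

lemma q2_of {a b c : ℝ} (h1 : 0 < c ∨ (c = 0 ∧ b ≤ a)) (h2 : 0 ≤ b + c) (h3 : 0 ≤ a + b + c)
    (h4 : 0 < a + 2 * b + 3 * c) : ∃ s : ℝ, q2 (s * a) (s * b) (s * c) := by
  set l := a + 2 * b + 3 * c with hl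
  have hp : 0 < l⁻¹ := inv_pos.2 h4
  have hm : l⁻¹ * l = 1 := inv_mul_cancel₀ h4.ne'
  refine ⟨5 * l⁻¹, ?_, ?_, ?_, ?_, ?_⟩
  · rcases h1 with h1 | ⟨h1, h5⟩
    · left; positivity
    · right
      refine ⟨by rw [h1, mul_zero], ?_⟩
      exact mul_le_mul_of_nonneg_left h5 (by positivity)
  · nlinarith [mul_nonneg hp.le h2]
  · nlinarith [mul_nonneg hp.le h3]
  · nlinarith
  · nlinarith

lemma q3_of {a b c : ℝ} (h1 : c < 0 ∨ (c = 0 ∧ a ≤ b)) (h2 : 0 ≤ a - c) (h3 : 0 ≤ a + b - c)
    (h4 : 0 < 2 * a + b - 3 * c) : ∃ s : ℝ, q3 (s * a) (s * b) (s * c) := by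
  set l := 2 * a + b - 3 * c with hl
  have hp : 0 < l⁻¹ := inv_pos.2 h4
  have hm : l⁻¹ * l = 1 := inv_mul_cancel₀ h4.ne'
  refine ⟨13 * l⁻¹, ?_, ?_, ?_, ?_, ?_⟩
  · rcases h1 with h1 | ⟨h1, h5⟩
    · left; nlinarith
    · right
      refine ⟨by rw [h1, mul_zero], ?_⟩
      exact mul_le_mul_of_nonneg_left h5 (by positivity)
  · nlinarith [mul_nonneg hp.le h2]
  · nlinarith [mul_nonneg hp.le h3]
  · nlinarith
  · nlinarith

/-- every line through the origin meets one of the three bodies -/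
lemma cover (a b c : ℝ) (h : ¬ (a = 0 ∧ b = 0 ∧ c = 0)) :
    ∃ s : ℝ, q1 (s * a) (s * b) (s * c) ∨ q2 (s * a) (s * b) (s * c) ∨
      q3 (s * a) (s * b) (s * c) := by
  -- lines with `c > 0`
  have key : ∀ a b c : ℝ, 0 < c → ∃ s : ℝ, q1 (s * a) (s * b) (s * c) ∨
      q2 (s * a) (s * b) (s * c) ∨ q3 (s * a) (s * b) (s * c) := by
    intro a b c hc
    by_cases h1 : 0 ≤ b + c
    · by_cases h2 : 0 ≤ a + b + c
      · obtain ⟨s, hs⟩ := q2_of (Or.inl hc) h1 h2 (by linarith)
        exact ⟨s, Or.inr (Or.inl hs)⟩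
      · push Not at h2
        obtain ⟨s, hs⟩ := q3_of (a := -a) (b := -b) (c := -c) (Or.inl (by linarith))
          (by linarith) (by linarith) (by linarith)
        refine ⟨-s, Or.inr (Or.inr ?_)⟩
        simpa using hs
    · push Not at h1
      by_cases h2 : 0 ≤ a + c
      · obtain ⟨s, hs⟩ := q1_of (a := -a) (b := -b) (c := -c) (by linarith)
          (by linarith) (by linarith) (by linarith)
        refine ⟨-s, Or.inl ?_⟩
        simpa using hs
      · push Not at h2
        obtain ⟨s, hs⟩ := q3_of (a := -a) (b := -b) (c := -c) (Or.inl (by linarith))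
          (by linarith) (by linarith) (by linarith)
        refine ⟨-s, Or.inr (Or.inr ?_)⟩
        simpa using hs
  -- lines with `c = 0`, `b > 0`
  have key2 : ∀ a b : ℝ, 0 < b → ∃ s : ℝ, q1 (s * a) (s * b) (s * 0) ∨
      q2 (s * a) (s * b) (s * 0) ∨ q3 (s * a) (s * b) (s * 0) := by
    intro a b hb
    by_cases h1 : a ≤ 0
    · obtain ⟨s, hs⟩ := q1_of (a := a) (b := b) (c := 0) le_rfl (by linarith) (by linarith)
        (by linarith)
      exact ⟨s, Or.inl hs⟩
    · push Not at h1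
      by_cases h2 : b ≤ a
      · obtain ⟨s, hs⟩ := q2_of (a := a) (b := b) (c := 0) (Or.inr ⟨rfl, h2⟩) (by linarith)
          (by linarith) (by linarith)
        exact ⟨s, Or.inr (Or.inl hs)⟩
      · obtain ⟨s, hs⟩ := q3_of (a := a) (b := b) (c := 0) (Or.inr ⟨rfl, by linarith⟩)
          (by linarith) (by linarith) (by linarith)
        exact ⟨s, Or.inr (Or.inr hs)⟩
  have key3 : ∀ a : ℝ, 0 < a → ∃ s : ℝ, q1 (s * a) (s * 0) (s * 0) ∨
      q2 (s * a) (s * 0) (s * 0) ∨ q3 (s * a) (s * 0) (s * 0) := by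
    intro a ha
    obtain ⟨s, hs⟩ := q2_of (a := a) (b := 0) (c := 0) (Or.inr ⟨rfl, ha.le⟩) (by linarith)
      (by linarith) (by linarith)
    exact ⟨s, Or.inr (Or.inl hs)⟩
  rcases lt_trichotomy c 0 with hc | hc | hc
  · obtain ⟨s, hs⟩ := key (-a) (-b) (-c) (by linarith)
    exact ⟨-s, by simpa using hs⟩
  · subst hc
    rcases lt_trichotomy b 0 with hb | hb | hb
    · obtain ⟨s, hs⟩ := key2 (-a) (-b) (by linarith)
      exact ⟨-s, by simpa using hs⟩
    · subst hb
      rcases lt_trichotomy a 0 with ha | ha | ha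
      · obtain ⟨s, hs⟩ := key3 (-a) (by linarith)
        exact ⟨-s, by simpa using hs⟩
      · exact absurd ⟨ha, rfl, rfl⟩ h
      · exact key3 a ha
    · exact key2 a b hb
  · exact key a b c hc

/-- through every other point near the origin there is a line which misses the three bodies -/
lemma miss (X Y T : ℝ) (hX : |X| < 1 / 10) (hY : |Y| < 1 / 10) (hT : |T| < 1 / 10)
    (h : ¬ (X = 0 ∧ Y = 0 ∧ T = 0)) :
    ∃ a b c : ℝ, ¬ (a = 0 ∧ b = 0 ∧ c = 0) ∧ ∀ s : ℝ, ¬ q1 (X + s * a) (Y + s * b) (T + s * c) ∧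
      ¬ q2 (X + s * a) (Y + s * b) (T + s * c) ∧ ¬ q3 (X + s * a) (Y + s * b) (T + s * c) := by
  rw [abs_lt] at hX hY hT
  obtain ⟨hX1, hX2⟩ := hX
  obtain ⟨hY1, hY2⟩ := hY
  obtain ⟨hT1, hT2⟩ := hT
  rcases lt_trichotomy T 0 with hT | hT | hT
  · refine ⟨1, 1, -T / 3, by simp, fun s => ⟨?_, ?_, ?_⟩⟩
    · rintro ⟨h1, h2, h3, h4, h5⟩
      have k1 : 1 / 2 ≤ s * T := by nlinarith
      have k2 : s < -4 := by
        by_contra hs
        push Not at hs
        nlinarith [mul_nonneg (by linarith : 0 ≤ s + 4) (by linarith : 0 ≤ -T)]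
      nlinarith [mul_nonneg (by linarith : 0 ≤ -4 - s) (by linarith : 0 ≤ 1 + T / 3)]
    · rintro ⟨h1, h2, h3, h4, h5⟩
      have h0 : 0 ≤ T + s * (-T / 3) := by
        rcases h1 with h1 | ⟨h1, -⟩
        · exact h1.le
        · exact h1.ge
      have k1 : 3 ≤ s := by
        by_contra hs
        push Not at hs
        nlinarith [mul_pos (by linarith : 0 < 3 - s) (by linarith : 0 < -T)]
      linarith
    · rintro ⟨h1, h2, h3, h4, h5⟩
      have h0 : T + s * (-T / 3) ≤ 0 := by
        rcases h1 with h1 | ⟨h1, -⟩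
        · exact h1.le
        · exact h1.le
      have k1 : s ≤ 3 := by
        by_contra hs
        push Not at hs
        nlinarith [mul_pos (by linarith : 0 < s - 3) (by linarith : 0 < -T)]
      nlinarith [mul_nonneg (by linarith : 0 ≤ 3 - s) (by linarith : 0 ≤ 3 + T)]
  · subst hT
    by_cases hY0 : Y < 0
    · refine ⟨1, 0, 0, by simp, fun s => ⟨?_, ?_, ?_⟩⟩
      · rintro ⟨h1, h2, h3, h4, h5⟩; linarith
      · rintro ⟨h1, h2, h3, h4, h5⟩; linarith
      · rintro ⟨h1, h2, h3, h4, h5⟩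
        rcases h1 with h1 | ⟨-, h1⟩
        · linarith
        · linarith
    · push Not at hY0
      by_cases hYX : X < Y
      · refine ⟨3 - X, 3 - Y, 0, by intro hh; linarith [hh.1], fun s => ⟨?_, ?_, ?_⟩⟩
        · rintro ⟨h1, h2, h3, h4, h5⟩
          have k0 : 1 ≤ (Y - X) * (1 - s) := by nlinarith
          have k1 : s ≤ -4 := by
            by_contra hs
            push Not at hs
            nlinarith [mul_pos (by linarith : 0 < s + 4) (by linarith : 0 < Y - X)]
          nlinarith [mul_nonneg (by linarith : 0 ≤ -4 - s) (by linarith : 0 ≤ 3 - Y)]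
        · rintro ⟨h1, h2, h3, h4, h5⟩
          have h0 : Y + s * (3 - Y) ≤ X + s * (3 - X) := by
            rcases h1 with h1 | ⟨-, h1⟩
            · linarith
            · exact h1
          have k1 : 1 ≤ s := by
            by_contra hs
            push Not at hs
            nlinarith [mul_pos (by linarith : 0 < 1 - s) (by linarith : 0 < Y - X)]
          nlinarith [mul_nonneg (by linarith : 0 ≤ s - 1) (by linarith : 0 ≤ 3 - Y),
            mul_nonneg (by linarith : 0 ≤ s - 1) (by linarith : 0 ≤ 3 - X)]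
        · rintro ⟨h1, h2, h3, h4, h5⟩
          have h0 : X + s * (3 - X) ≤ Y + s * (3 - Y) := by
            rcases h1 with h1 | ⟨-, h1⟩
            · linarith
            · exact h1
          have k1 : s ≤ 1 := by
            by_contra hs
            push Not at hs
            nlinarith [mul_pos (by linarith : 0 < s - 1) (by linarith : 0 < Y - X)]
          nlinarith [mul_nonneg (by linarith : 0 ≤ 1 - s) (by linarith : 0 ≤ 3 - Y),
            mul_nonneg (by linarith : 0 ≤ 1 - s) (by linarith : 0 ≤ 3 - X)]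
      · push Not at hYX
        have hX0 : 0 < X := by
          rcases (hY0.trans hYX).eq_or_lt with hh | hh
          · exfalso
            apply h
            refine ⟨hh.symm, ?_, rfl⟩
            linarith
          · exact hh
        refine ⟨-X, 6 - Y, 0, by intro hh; linarith [hh.1], fun s => ⟨?_, ?_, ?_⟩⟩
        · rintro ⟨h1, h2, h3, h4, h5⟩
          have k1 : 1 ≤ s := by
            by_contra hs
            push Not at hs
            nlinarith [mul_pos (by linarith : 0 < 1 - s) hX0]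
          nlinarith [mul_nonneg (by linarith : 0 ≤ s - 1) (by linarith : 0 ≤ 6 - Y)]
        · rintro ⟨h1, h2, h3, h4, h5⟩
          have h0 : Y + s * (6 - Y) ≤ X + s * (-X) := by
            rcases h1 with h1 | ⟨-, h1⟩
            · linarith
            · exact h1
          have k0 : 1 ≤ X * (1 - s) := by nlinarith
          have k1 : s ≤ -4 := by
            by_contra hs
            push Not at hs
            nlinarith [mul_pos (by linarith : 0 < s + 4) hX0]
          nlinarith [mul_nonneg (by linarith : 0 ≤ -4 - s) (by linarith : 0 ≤ 6 - Y)]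
        · rintro ⟨h1, h2, h3, h4, h5⟩
          have h0 : X + s * (-X) ≤ Y + s * (6 - Y) := by
            rcases h1 with h1 | ⟨-, h1⟩
            · linarith
            · exact h1
          have k2 : s ≤ 1 := by
            by_contra hs
            push Not at hs
            nlinarith [mul_pos (by linarith : 0 < s - 1) hX0]
          have k3 : Y + s * (6 - Y) ≤ 6 := by
            nlinarith [mul_nonneg (by linarith : 0 ≤ 1 - s) (by linarith : 0 ≤ 6 - Y)]
          have k0 : 1 ≤ X * (1 - s) := by nlinarith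
          have k1 : s ≤ -4 := by
            by_contra hs
            push Not at hs
            nlinarith [mul_pos (by linarith : 0 < s + 4) hX0]
          nlinarith [mul_nonneg (by linarith : 0 ≤ -4 - s) (by linarith : 0 ≤ 6 - Y)]
  · refine ⟨-2, 1, 0, by simp, fun s => ⟨?_, ?_, ?_⟩⟩
    · rintro ⟨h1, h2, h3, h4, h5⟩; linarith
    · rintro ⟨h1, h2, h3, h4, h5⟩; linarith
    · rintro ⟨h1, h2, h3, h4, h5⟩
      rcases h1 with h1 | ⟨h1, -⟩
      · linarith
      · linarith

/-- the three bodies: a compact one and two which contain only a part of one of their facets -/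
def B (i : Fin 3) : Set (E 3) :=
  if i = 0 then {p | q1 (p 0) (p 1) (p 2)} else if i = 1 then {p | q2 (p 0) (p 1) (p 2)}
    else {p | q3 (p 0) (p 1) (p 2)}

lemma B0 : B 0 = {p | q1 (p 0) (p 1) (p 2)} := rfl

lemma B1 : B 1 = {p | q2 (p 0) (p 1) (p 2)} := rfl

lemma B2 : B 2 = {p | q3 (p 0) (p 1) (p 2)} := rfl

/-- a linear form -/
def lin (a b c : ℝ) : E 3 →ₗ[ℝ] ℝ where
  toFun p := a * p 0 + b * p 1 + c * p 2
  map_add' p q := by simp; ring
  map_smul' r p := by simp; ring

lemma lin_apply (a b c : ℝ) (p : E 3) : lin a b c p = a * p 0 + b * p 1 + c * p 2 := rfl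

lemma lin_ne {a b c : ℝ} (h : a ≠ 0) : lin a b c ≠ 0 := by
  intro h0
  have h1 := LinearMap.congr_fun h0 (EuclideanSpace.single 0 1)
  rw [lin_apply] at h1
  simp at h1
  exact h h1

lemma bounded_of {A : Set (E 3)} (h : ∀ p ∈ A, |p 0| ≤ 28 ∧ |p 1| ≤ 28 ∧ |p 2| ≤ 28) :
    Bornology.IsBounded A := by
  refine (Metric.isBounded_iff_subset_closedBall 0).2 ⟨100, fun p hp => ?_⟩
  obtain ⟨h0, h1, h2⟩ := h p hp
  rw [mem_closedBall_zero_iff, EuclideanSpace.norm_eq]
  refine Real.sqrt_le_iff.2 ⟨by norm_num, ?_⟩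
  rw [Fin.sum_univ_three]
  simp only [Real.norm_eq_abs, sq_abs]
  have e : ∀ x : ℝ, |x| ≤ 28 → x ^ 2 ≤ 28 ^ 2 := fun x hx => by
    rw [← sq_abs]; exact pow_le_pow_left₀ (abs_nonneg x) hx 2
  linarith [e _ h0, e _ h1, e _ h2]

lemma convex_q1 : Convex ℝ {p : E 3 | q1 (p 0) (p 1) (p 2)} := by
  rintro p ⟨p1, p2, p3, p4, p5⟩ q ⟨r1, r2, r3, r4, r5⟩ a b ha hb hab
  have hb' : b = 1 - a := by linarith
  subst hb'
  simp only [mem_ofPred_eq, q1, PiLp.add_apply, PiLp.smul_apply, smul_eq_mul]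
  refine ⟨?_, ?_, ?_, ?_, ?_⟩
  · nlinarith
  · nlinarith
  · nlinarith
  · nlinarith
  · nlinarith

lemma convex_q2 : Convex ℝ {p : E 3 | q2 (p 0) (p 1) (p 2)} := by
  rintro p ⟨p1, p2, p3, p4, p5⟩ q ⟨r1, r2, r3, r4, r5⟩ a b ha hb hab
  have hb' : b = 1 - a := by linarith
  subst hb'
  simp only [mem_ofPred_eq, q2, PiLp.add_apply, PiLp.smul_apply, smul_eq_mul]
  refine ⟨?_, by nlinarith, by nlinarith, by nlinarith, by nlinarith⟩
  rcases ha.eq_or_lt with h | h
  · subst h
    simpa using r1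
  · rcases hb.eq_or_lt with h' | h'
    · have : a = 1 := by linarith
      subst this
      simpa using p1
    · rcases p1 with p1 | ⟨p1, p6⟩
      · left
        rcases r1 with r1 | ⟨r1, -⟩
        · nlinarith [mul_pos h p1, mul_pos h' r1]
        · rw [r1]; nlinarith [mul_pos h p1]
      · rcases r1 with r1 | ⟨r1, r6⟩
        · left; rw [p1]; nlinarith [mul_pos h' r1]
        · right
          refine ⟨by rw [p1, r1]; ring, ?_⟩
          nlinarith [mul_nonneg h.le (sub_nonneg.2 p6), mul_nonneg h'.le (sub_nonneg.2 r6)]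

lemma convex_q3 : Convex ℝ {p : E 3 | q3 (p 0) (p 1) (p 2)} := by
  rintro p ⟨p1, p2, p3, p4, p5⟩ q ⟨r1, r2, r3, r4, r5⟩ a b ha hb hab
  have hb' : b = 1 - a := by linarith
  subst hb'
  simp only [mem_ofPred_eq, q3, PiLp.add_apply, PiLp.smul_apply, smul_eq_mul]
  refine ⟨?_, by nlinarith, by nlinarith, by nlinarith, by nlinarith⟩
  rcases ha.eq_or_lt with h | h
  · subst h
    simpa using r1
  · rcases hb.eq_or_lt with h' | h'
    · have : a = 1 := by linarith
      subst this
      simpa using p1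
    · rcases p1 with p1 | ⟨p1, p6⟩
      · left
        rcases r1 with r1 | ⟨r1, -⟩
        · nlinarith [mul_neg_of_pos_of_neg h p1, mul_neg_of_pos_of_neg h' r1]
        · rw [r1]; nlinarith [mul_neg_of_pos_of_neg h p1]
      · rcases r1 with r1 | ⟨r1, r6⟩
        · left; rw [p1]; nlinarith [mul_neg_of_pos_of_neg h' r1]
        · right
          refine ⟨by rw [p1, r1]; ring, ?_⟩
          nlinarith [mul_nonneg h.le (sub_nonneg.2 p6), mul_nonneg h'.le (sub_nonneg.2 r6)]

lemma cont (i : Fin 3) : Continuous fun p : E 3 => p i := by fun_prop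

lemma interior_q1 : (interior {p : E 3 | q1 (p 0) (p 1) (p 2)}).Nonempty := by
  refine ⟨EuclideanSpace.single 2 (-1 / 2), mem_interior.2
    ⟨{p | p 2 < 0 ∧ p 0 + p 2 < 0 ∧ 0 < p 1 - p 2 ∧ 1 < -p 0 + p 1 - 3 * p 2 ∧
      -p 0 + p 1 - 3 * p 2 < 2}, ?_, ?_, ?_⟩⟩
  · rintro p ⟨h1, h2, h3, h4, h5⟩
    exact ⟨h1.le, h2.le, h3.le, h4.le, h5.le⟩
  · have o1 : IsOpen {p : E 3 | p 2 < 0} := isOpen_lt (by fun_prop) (by fun_prop)
    have o2 : IsOpen {p : E 3 | p 0 + p 2 < 0} := isOpen_lt (by fun_prop) (by fun_prop)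
    have o3 : IsOpen {p : E 3 | 0 < p 1 - p 2} := isOpen_lt (by fun_prop) (by fun_prop)
    have o4 : IsOpen {p : E 3 | 1 < -p 0 + p 1 - 3 * p 2} :=
      isOpen_lt (by fun_prop) (by fun_prop)
    have o5 : IsOpen {p : E 3 | -p 0 + p 1 - 3 * p 2 < 2} :=
      isOpen_lt (by fun_prop) (by fun_prop)
    exact o1.inter (o2.inter (o3.inter (o4.inter o5)))
  · simp; norm_num

lemma interior_q2 : (interior {p : E 3 | q2 (p 0) (p 1) (p 2)}).Nonempty := by
  refine ⟨EuclideanSpace.single 2 (11 / 6), mem_interior.2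
    ⟨{p | 0 < p 2 ∧ 0 < p 1 + p 2 ∧ 0 < p 0 + p 1 + p 2 ∧ 5 < p 0 + 2 * p 1 + 3 * p 2 ∧
      p 0 + 2 * p 1 + 3 * p 2 < 6}, ?_, ?_, ?_⟩⟩
  · rintro p ⟨h1, h2, h3, h4, h5⟩
    exact ⟨Or.inl h1, h2.le, h3.le, h4.le, h5.le⟩
  · have o1 : IsOpen {p : E 3 | 0 < p 2} := isOpen_lt (by fun_prop) (by fun_prop)
    have o2 : IsOpen {p : E 3 | 0 < p 1 + p 2} := isOpen_lt (by fun_prop) (by fun_prop)
    have o3 : IsOpen {p : E 3 | 0 < p 0 + p 1 + p 2} := isOpen_lt (by fun_prop) (by fun_prop)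
    have o4 : IsOpen {p : E 3 | 5 < p 0 + 2 * p 1 + 3 * p 2} :=
      isOpen_lt (by fun_prop) (by fun_prop)
    have o5 : IsOpen {p : E 3 | p 0 + 2 * p 1 + 3 * p 2 < 6} :=
      isOpen_lt (by fun_prop) (by fun_prop)
    exact o1.inter (o2.inter (o3.inter (o4.inter o5)))
  · simp; norm_num

lemma interior_q3 : (interior {p : E 3 | q3 (p 0) (p 1) (p 2)}).Nonempty := by
  refine ⟨EuclideanSpace.single 2 (-9 / 2), mem_interior.2
    ⟨{p | p 2 < 0 ∧ 0 < p 0 - p 2 ∧ 0 < p 0 + p 1 - p 2 ∧ 13 < 2 * p 0 + p 1 - 3 * p 2 ∧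
      2 * p 0 + p 1 - 3 * p 2 < 14}, ?_, ?_, ?_⟩⟩
  · rintro p ⟨h1, h2, h3, h4, h5⟩
    exact ⟨Or.inl h1, h2.le, h3.le, h4.le, h5.le⟩
  · have o1 : IsOpen {p : E 3 | p 2 < 0} := isOpen_lt (by fun_prop) (by fun_prop)
    have o2 : IsOpen {p : E 3 | 0 < p 0 - p 2} := isOpen_lt (by fun_prop) (by fun_prop)
    have o3 : IsOpen {p : E 3 | 0 < p 0 + p 1 - p 2} := isOpen_lt (by fun_prop) (by fun_prop)
    have o4 : IsOpen {p : E 3 | 13 < 2 * p 0 + p 1 - 3 * p 2} :=
      isOpen_lt (by fun_prop) (by fun_prop)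
    have o5 : IsOpen {p : E 3 | 2 * p 0 + p 1 - 3 * p 2 < 14} :=
      isOpen_lt (by fun_prop) (by fun_prop)
    exact o1.inter (o2.inter (o3.inter (o4.inter o5)))
  · simp; norm_num

lemma isBody_B (i : Fin 3) : IsBody (B i) := by
  fin_cases i
  · refine ⟨convex_q1, bounded_of ?_, interior_q1⟩
    rintro p ⟨h1, h2, h3, h4, h5⟩
    simp only [abs_le]
    refine ⟨⟨?_, ?_⟩, ⟨?_, ?_⟩, ?_, ?_⟩ <;> linarith
  · refine ⟨convex_q2, bounded_of ?_, interior_q2⟩
    rintro p ⟨h1, h2, h3, h4, h5⟩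
    have h6 : 0 ≤ p 2 := by rcases h1 with h | ⟨h, -⟩ <;> linarith
    simp only [abs_le]
    refine ⟨⟨?_, ?_⟩, ⟨?_, ?_⟩, ?_, ?_⟩ <;> linarith
  · refine ⟨convex_q3, bounded_of ?_, interior_q3⟩
    rintro p ⟨h1, h2, h3, h4, h5⟩
    have h6 : p 2 ≤ 0 := by rcases h1 with h | ⟨h, -⟩ <;> linarith
    simp only [abs_le]
    refine ⟨⟨?_, ?_⟩, ⟨?_, ?_⟩, ?_, ?_⟩ <;> linarith

lemma separated_B : StrictlySeparated B := by
  have a01 : (∀ x ∈ B 0, lin 1 2 3 x < 9 / 2) ∧ ∀ x ∈ B 1, 9 / 2 < lin 1 2 3 x := by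
    constructor
    · rintro p ⟨h1, h2, h3, h4, h5⟩; rw [lin_apply]; linarith
    · rintro p ⟨h1, h2, h3, h4, h5⟩; rw [lin_apply]; linarith
  have a02 : (∀ x ∈ B 0, lin 2 1 (-3) x < 25 / 2) ∧ ∀ x ∈ B 2, 25 / 2 < lin 2 1 (-3) x := by
    constructor
    · rintro p ⟨h1, h2, h3, h4, h5⟩; rw [lin_apply]; linarith
    · rintro p ⟨h1, h2, h3, h4, h5⟩; rw [lin_apply]; linarith
  have a12 : (∀ x ∈ B 1, lin 2 1 (-3) x < 25 / 2) ∧ ∀ x ∈ B 2, 25 / 2 < lin 2 1 (-3) x := by
    constructor
    · rintro p ⟨h1, h2, h3, h4, h5⟩; rw [lin_apply]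
      have h6 : 0 ≤ p 2 := by rcases h1 with h | ⟨h, -⟩ <;> linarith
      linarith
    · exact a02.2
  have neg : ∀ {i j : Fin 3} {a b c d : ℝ}, a ≠ 0 → (∀ x ∈ B i, lin a b c x < d) →
      (∀ x ∈ B j, d < lin a b c x) → ∃ (f : E 3 →ₗ[ℝ] ℝ) (c : ℝ),
        f ≠ 0 ∧ (∀ x ∈ B j, f x < c) ∧ ∀ x ∈ B i, c < f x := by
    intro i j a b c d ha h1 h2
    refine ⟨-lin a b c, -d, by simpa using lin_ne ha, fun x hx => ?_, fun x hx => ?_⟩
    · have := h2 x hx
      simp only [LinearMap.neg_apply]; linarith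
    · have := h1 x hx
      simp only [LinearMap.neg_apply]; linarith
  intro i j hij
  fin_cases i <;> fin_cases j
  · exact absurd rfl hij
  · exact ⟨_, _, lin_ne one_ne_zero, a01.1, a01.2⟩
  · exact ⟨_, _, lin_ne two_ne_zero, a02.1, a02.2⟩
  · exact neg one_ne_zero a01.1 a01.2
  · exact absurd rfl hij
  · exact ⟨_, _, lin_ne two_ne_zero, a12.1, a12.2⟩
  · exact neg two_ne_zero a02.1 a02.2
  · exact neg two_ne_zero a12.1 a12.2
  · exact absurd rfl hij

lemma mem_union_B {p : E 3} : p ∈ ⋃ i, B i ↔ q1 (p 0) (p 1) (p 2) ∨ q2 (p 0) (p 1) (p 2) ∨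
    q3 (p 0) (p 1) (p 2) := by
  rw [mem_iUnion]
  constructor
  · rintro ⟨i, hi⟩
    fin_cases i
    · exact Or.inl hi
    · exact Or.inr (Or.inl hi)
    · exact Or.inr (Or.inr hi)
  · rintro (h | h | h)
    · exact ⟨0, h⟩
    · exact ⟨1, h⟩
    · exact ⟨2, h⟩

lemma zero_mem_hull : (0 : E 3) ∈ hull (⋃ i, B i) := by
  intro u hu
  have h : ¬ (u 0 = 0 ∧ u 1 = 0 ∧ u 2 = 0) := by
    rintro ⟨h0, h1, h2⟩
    apply hu
    ext i
    fin_cases i
    · exact h0
    · exact h1
    · exact h2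
  obtain ⟨s, hs⟩ := cover _ _ _ h
  refine ⟨s, mem_union_B.2 ?_⟩
  simpa using hs

lemma isolated {p : E 3} (hp : p ∈ hull (⋃ i, B i)) (h0 : |p 0| < 1 / 10) (h1 : |p 1| < 1 / 10)
    (h2 : |p 2| < 1 / 10) : p = 0 := by
  by_contra hne
  have h : ¬ (p 0 = 0 ∧ p 1 = 0 ∧ p 2 = 0) := by
    rintro ⟨h0, h1, h2⟩
    apply hne
    ext i
    fin_cases i
    · exact h0
    · exact h1
    · exact h2
  obtain ⟨a, b, c, habc, hmiss⟩ := miss _ _ _ h0 h1 h2 h
  obtain ⟨t, ht⟩ := hp (!₂[a, b, c]) (by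
    intro hz
    apply habc
    refine ⟨?_, ?_, ?_⟩
    · simpa using congrFun (congrArg WithLp.ofLp hz) 0
    · simpa using congrFun (congrArg WithLp.ofLp hz) 1
    · simpa using congrFun (congrArg WithLp.ofLp hz) 2)
  have h3 := mem_union_B.1 ht
  have h4 := hmiss t
  simp only [PiLp.add_apply, PiLp.smul_apply, smul_eq_mul] at h3
  simp at h3
  rcases h3 with h3 | h3 | h3
  · exact h4.1 h3
  · exact h4.2.1 h3
  · exact h4.2.2 h3

lemma zero_comp {y : hull (⋃ i, B i)} (hy : y.1 ≠ 0) :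
    ((⟨0, zero_mem_hull⟩ : hull (⋃ i, B i)) : ConnectedComponents (hull (⋃ i, B i)))
      ≠ (y : ConnectedComponents (hull (⋃ i, B i))) := by
  let U : Set (hull (⋃ i, B i)) := {z | z.1 = 0}
  have hUc : IsClosed U := isClosed_eq continuous_subtype_val continuous_const
  have hUo : IsOpen U := by
    have : U = {z | |z.1 0| < 1 / 10} ∩ ({z | |z.1 1| < 1 / 10} ∩ {z | |z.1 2| < 1 / 10}) := by
      ext z
      constructor
      · intro hz
        have hz' : z.1 = 0 := hz
        simp only [mem_inter_iff, mem_ofPred_eq, hz']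
        norm_num
      · rintro ⟨h0, h1, h2⟩
        exact isolated z.2 h0 h1 h2
    rw [this]
    have c : ∀ i : Fin 3, Continuous fun z : hull (⋃ i, B i) => |z.1 i| := fun i =>
      ((cont i).comp continuous_subtype_val).abs
    exact (isOpen_lt (c 0) continuous_const).inter ((isOpen_lt (c 1) continuous_const).inter
      (isOpen_lt (c 2) continuous_const))
  intro heq
  have h1 : y ∈ connectedComponent (⟨0, zero_mem_hull⟩ : hull (⋃ i, B i)) := by
    rw [← ConnectedComponents.coe_eq_coe']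
    exact heq.symm
  exact hy ((IsClopen.connectedComponent_subset ⟨hUc, hUo⟩ (show _ ∈ U from rfl)) h1)

lemma zero_notMem_B (i : Fin 3) : (0 : E 3) ∉ B i := by
  fin_cases i
  · rintro ⟨h1, h2, h3, h4, h5⟩; simp at h4; linarith
  · rintro ⟨h1, h2, h3, h4, h5⟩; simp at h4; linarith
  · rintro ⟨h1, h2, h3, h4, h5⟩; simp at h4; linarith

lemma four : (4 : ℕ∞) ≤ ENat.card (ConnectedComponents (hull (⋃ i, B i))) := by
  have hne : ∀ i, (B i).Nonempty := fun i =>
    (isBody_B i).interior_nonempty.mono interior_subset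
  choose s hs using hne
  let a : Option (Fin 3) → hull (⋃ i, B i) := fun o => o.elim ⟨0, zero_mem_hull⟩
    fun i => ⟨s i, subset_hull (mem_iUnion.2 ⟨i, hs i⟩)⟩
  have hsne : ∀ i, s i ≠ 0 := fun i h => zero_notMem_B i (h ▸ hs i)
  have hinj : Function.Injective fun o => (a o : ConnectedComponents (hull (⋃ i, B i))) := by
    intro o o' hoo
    rcases o with _ | i <;> rcases o' with _ | j
    · rfl
    · exact absurd hoo (zero_comp (hsne j))
    · exact absurd hoo.symm (zero_comp (hsne i))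
    · by_contra hne
      have hij : i ≠ j := fun h => hne (by rw [h])
      exact comp_ne separated_B hij (hs i) (hs j) hoo
  have h := ENat.card_le_card_of_injective hinj
  have h4 : ENat.card (Option (Fin 3)) = 4 := by
    rw [ENat.card_eq_coe_fintype_card]; rfl
  rwa [h4] at h

/-- (1) `n` strictly separated bodies in `ℝ^n`: the visual hull of their union has at least `n`
components. (2) It has exactly `n` components if all the bodies are compact, or if all are open.
(3) There are three strictly separated bodies in `ℝ³` for which it has at least four components. -/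
theorem result :
    (∀ n : ℕ, 1 ≤ n → ∀ S : Fin n → Set (E n), (∀ i, IsBody (S i)) → StrictlySeparated S →
      (n : ℕ∞) ≤ ENat.card (ConnectedComponents (hull (⋃ i, S i))) ∧
      ((∀ i, IsCompact (S i)) ∨ (∀ i, IsOpen (S i)) →
        ENat.card (ConnectedComponents (hull (⋃ i, S i))) = n)) ∧
    ∃ S : Fin 3 → Set (E 3), (∀ i, IsBody (S i)) ∧ StrictlySeparated S ∧
      4 ≤ ENat.card (ConnectedComponents (hull (⋃ i, S i))) := by
  refine ⟨fun n hn S hB hS => ?_, B, isBody_B, separated_B, four⟩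
  have hne : ∀ i, (S i).Nonempty := fun i =>
    (hB i).interior_nonempty.mono interior_subset
  refine ⟨card_ge hS hne, ?_⟩
  rintro (hk | ho)
  · exact card_eq hn hS (fun i => (hB i).convex) hne fun x hx hxS =>
      common_ray_compact hn (fun i => (hB i).convex) hk hne hx hxS
  · exact card_eq hn hS (fun i => (hB i).convex) hne fun x hx hxS =>
      common_ray_open (fun i => (hB i).convex) ho hne hx hxS

end Pool.Agent.Results.MP_1d6f1e_gt.VisualHull
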